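import Pool.Agent.helper57.PP.Spec

/-!
# Row ZL: the two paths as lists
-/

set_option autoImplicit false

namespace Pool.Agent.helper57.PP

open Finset

theorem ZL_map {W : Type} (n : ℕ) (q : ℕ → W) :
    (List.range (n + 1)).map q = q 0 :: (List.range n).map (fun i => q (i + 1)) := by
  rw [List.range_succ_eq_map, List.map_cons, List.map_map]
  rfl

theorem ZL_bl {W : Type} (m : ℕ) (hm : 3 ≤ m) (p : ℕ → W) :
    p 1 :: bl m p = (List.range (m - 1)).map (fun i => p (i + 1)) := by
  obtain ⟨k, rfl⟩ : ∃ k, m = k + 2 := ⟨m - 2, by omega⟩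
  have h : k + 2 - 1 = k + 1 := by omega
  rw [h, ZL_map]
  rfl

theorem ZL_tl {W : Type} (m : ℕ) (hm : 3 ≤ m) (p : ℕ → W) :
    tl m p ++ [p (m + 1)] = ((List.range (m - 1)).map (fun i => p (m + i + 1))).reverse := by
  obtain ⟨k, rfl⟩ : ∃ k, m = k + 2 := ⟨m - 2, by omega⟩
  have h : k + 2 - 1 = k + 1 := by omega
  rw [h, ZL_map, List.reverse_cons]
  rfl

theorem ZL_one {W : Type} (m : ℕ) (hm : 3 ≤ m) (p : ℕ → W) :
    pth (p 0) (p 1 :: bl m p) (p m) = (List.range (m + 1)).map p := by
  rw [ZL_bl m hm]
  unfold pth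
  obtain ⟨k, rfl⟩ : ∃ k, m = k + 1 := ⟨m - 1, by omega⟩
  rw [ZL_map, List.range_succ, List.map_append]
  rfl

theorem ZL_two {W : Type} (m : ℕ) (hm : 3 ≤ m) (p : ℕ → W) (hp : ∀ i, p (i + 2 * m) = p i) :
    pth (p 0) (tl m p ++ [p (m + 1)]) (p m) =
      ((List.range (m + 1)).map (fun i => p (m + i))).reverse := by
  rw [ZL_tl m hm]
  unfold pth
  obtain ⟨k, rfl⟩ : ∃ k, m = k + 1 := ⟨m - 1, by omega⟩
  rw [ZL_map, List.range_succ, List.map_append, List.reverse_cons, List.reverse_append]
  have h0 : p (k + 1 + (k + 1)) = p 0 := by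
    rw [← hp 0]
    congr 1
    omega
  simp only [List.map_cons, List.map_nil, List.reverse_cons, List.reverse_nil, List.nil_append,
    List.cons_append, Nat.add_sub_cancel, Nat.add_zero]
  rw [h0]
  rfl

theorem ZL_pe {W : Type} [DecidableEq W] (q : ℕ → W) (n : ℕ) (e : Finset W) :
    e ∈ pe ((List.range (n + 1)).map q) ↔ ∃ i, i < n ∧ e = {q i, q (i + 1)} := by
  induction n with
  | zero => simp
  | succ n ih =>
    rw [List.range_succ, List.map_append, List.range_succ, List.map_append]
    simp only [List.map_cons, List.map_nil, List.append_assoc, List.singleton_append]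
    rw [pe_append]
    have h : (List.range n).map q ++ [q n] = (List.range (n + 1)).map q := by
      rw [List.range_succ, List.map_append]
      rfl
    rw [h, mem_union, ih]
    simp only [pe_cons_cons, pe_singleton, mem_insert, notMem_empty, or_false]
    constructor
    · rintro (⟨i, hi, rfl⟩ | rfl)
      · exact ⟨i, by omega, rfl⟩
      · exact ⟨n, by omega, rfl⟩
    · rintro ⟨i, hi, rfl⟩
      by_cases hin : i = n
      · subst hin
        exact Or.inr rfl
      · exact Or.inl ⟨i, by omega, rfl⟩

theorem ZL_pos {W : Type} (q : ℕ → W) (n : ℕ) (X Z : List W) (y a : W)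
    (h : (List.range n).map q = X ++ y :: a :: Z) :
    X.length + 1 < n ∧ y = q X.length ∧ a = q (X.length + 1) := by
  have hl := congrArg List.length h
  simp only [List.length_map, List.length_range, List.length_append, List.length_cons] at hl
  have h1 : ((List.range n).map q)[X.length]? = some y := by
    rw [h]
    simp
  have h2 : ((List.range n).map q)[X.length + 1]? = some a := by
    rw [h]
    simp
  rw [List.getElem?_map, List.getElem?_range (by omega)] at h1 h2
  simp only [Option.map_some, Option.some.injEq] at h1 h2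
  exact ⟨by omega, h1.symm, h2.symm⟩

theorem ZL : ZL_stmt := by
  intro W _ m p hm hper hinj
  have e1 := ZL_one m hm p
  have e2 := ZL_two m hm p hper
  have m4 : ∀ x, x ∈ p 1 :: bl m p ↔ ∃ i, 1 ≤ i ∧ i < m ∧ x = p i := by
    intro x
    rw [ZL_bl m hm, List.mem_map]
    constructor
    · rintro ⟨i, hi, rfl⟩
      rw [List.mem_range] at hi
      exact ⟨i + 1, by omega, by omega, rfl⟩
    · rintro ⟨i, hi, hi', rfl⟩
      refine ⟨i - 1, List.mem_range.2 (by omega), ?_⟩
      congr 1
      omega
  have m6 : ∀ x, x ∈ tl m p ++ [p (m + 1)] ↔ ∃ i, 1 ≤ i ∧ i < m ∧ x = p (m + i) := by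
    intro x
    rw [ZL_tl m hm, List.mem_reverse, List.mem_map]
    constructor
    · rintro ⟨i, hi, rfl⟩
      rw [List.mem_range] at hi
      exact ⟨i + 1, by omega, by omega, rfl⟩
    · rintro ⟨i, hi, hi', rfl⟩
      refine ⟨i - 1, List.mem_range.2 (by omega), ?_⟩
      congr 1
      omega
  have m5 : ∀ x, x ∈ tl m p ↔ ∃ i, 2 ≤ i ∧ i < m ∧ x = p (m + i) := by
    intro x
    unfold tl
    rw [List.mem_reverse, List.mem_map]
    constructor
    · rintro ⟨i, hi, rfl⟩
      rw [List.mem_range] at hi
      exact ⟨i + 2, by omega, by omega, rfl⟩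
    · rintro ⟨i, hi, hi', rfl⟩
      refine ⟨i - 2, List.mem_range.2 (by omega), ?_⟩
      congr 1
      omega
  refine ⟨?_, ?_, ?_, m4, m5, m6, ?_, ?_, ?_, ?_⟩
  · rw [List.nodup_cons, List.nodup_cons, List.nodup_append]
    refine ⟨?_, ?_, ?_, ?_, ?_⟩
    · rw [List.mem_cons, List.mem_append, m4, m6]
      rintro (h | ⟨i, h1, h2, h⟩ | ⟨i, h1, h2, h⟩)
      · have := hinj 0 (by omega) m (by omega) h
        omega
      · have := hinj 0 (by omega) i (by omega) h
        omega
      · have := hinj 0 (by omega) (m + i) (by omega) h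
        omega
    · rw [List.mem_append, m4, m6]
      rintro (⟨i, h1, h2, h⟩ | ⟨i, h1, h2, h⟩)
      · have := hinj m (by omega) i (by omega) h
        omega
      · have := hinj m (by omega) (m + i) (by omega) h
        omega
    · rw [ZL_bl m hm]
      refine List.Nodup.map_on ?_ List.nodup_range
      intro x hx y hy hxy
      rw [List.mem_range] at hx hy
      have := hinj (x + 1) (by omega) (y + 1) (by omega) hxy
      omega
    · rw [ZL_tl m hm, List.nodup_reverse]
      refine List.Nodup.map_on ?_ List.nodup_range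
      intro x hx y hy hxy
      rw [List.mem_range] at hx hy
      have := hinj (m + x + 1) (by omega) (m + y + 1) (by omega) hxy
      omega
    · intro a ha b hb hab
      rw [m4] at ha
      rw [m6] at hb
      obtain ⟨i, h1, h2, rfl⟩ := ha
      obtain ⟨j, h3, h4, rfl⟩ := hb
      have := hinj i (by omega) (m + j) (by omega) hab
      omega
  · intro x
    rw [e1, List.mem_map]
    constructor
    · rintro ⟨i, hi, rfl⟩
      rw [List.mem_range] at hi
      exact ⟨i, by omega, rfl⟩
    · rintro ⟨i, hi, rfl⟩
      exact ⟨i, List.mem_range.2 (by omega), rfl⟩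
  · intro x
    rw [e2, List.mem_reverse, List.mem_map]
    constructor
    · rintro ⟨i, hi, rfl⟩
      rw [List.mem_range] at hi
      exact ⟨m + i, by omega, by omega, rfl⟩
    · rintro ⟨i, hi, hi', rfl⟩
      refine ⟨i - m, List.mem_range.2 (by omega), ?_⟩
      congr 1
      omega
  · intro e
    rw [e1, ZL_pe]
  · intro e
    rw [e2, pe_reverse, ZL_pe]
    constructor
    · rintro ⟨i, hi, rfl⟩
      exact ⟨m + i, by omega, by omega, rfl⟩
    · rintro ⟨i, hi, hi', rfl⟩
      obtain ⟨k, rfl⟩ : ∃ k, i = m + k := ⟨i - m, by omega⟩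
      exact ⟨k, by omega, rfl⟩
  · intro i y A B hi him h
    rw [e2] at h
    have h' := congrArg List.reverse h
    rw [List.reverse_reverse, List.reverse_append, List.reverse_cons, List.reverse_cons,
      List.append_assoc, List.append_assoc] at h'
    simp only [List.singleton_append] at h'
    obtain ⟨h1, h2, h3⟩ := ZL_pos (fun i => p (m + i)) (m + 1) B.reverse A.reverse y (p (m + i)) (by
      rw [h'])
    have hk : B.reverse.length + 1 = i := by
      by_cases hlt : B.reverse.length + 1 < m
      · have := hinj (m + i) (by omega) (m + (B.reverse.length + 1)) (by omega) h3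
        omega
      · exfalso
        have h0 : m + (B.reverse.length + 1) = 0 + 2 * m := by omega
        rw [h0, hper 0] at h3
        have := hinj (m + i) (by omega) 0 (by omega) h3
        omega
    rw [h2]
    congr 1
    omega
  · intro r hr i hi
    rw [e1, List.pairwise_iff_getElem] at hr
    have := hr i (i + 1) (by simp; omega) (by simp; omega) (by omega)
    simpa using this

end Pool.Agent.helper57.PP
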